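import Mathlib
import Pool.Agent.H.MP_59b15d_al.h24.Comp

set_option autoImplicit false

namespace Pool.Agent.Results.MP_59b15d_al.AlgebraicOrbits

open Pool.MP_59b15d_al.H24

universe u v

/-- Every closed surface group is finitely generated. -/
theorem fg_surface (g : ℕ) (G : Type) [Group G]
    (h : Nonempty (G ≃* PresentedGroup
        ({(List.ofFn (fun i : Fin g =>
            FreeGroup.of (Sum.inl i : Fin g ⊕ Fin g) *
            FreeGroup.of (Sum.inr i : Fin g ⊕ Fin g) *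
            (FreeGroup.of (Sum.inl i : Fin g ⊕ Fin g))⁻¹ *
            (FreeGroup.of (Sum.inr i : Fin g ⊕ Fin g))⁻¹)).prod} :
          Set (FreeGroup (Fin g ⊕ Fin g))))) : Group.FG G := by
  obtain ⟨e⟩ := h
  have h1 : Group.FG (FreeGroup (Fin g ⊕ Fin g)) := by
    refine Group.fg_iff.mpr ⟨Set.range FreeGroup.of, FreeGroup.closure_range_of _, Set.finite_range _⟩
  have h2 : Function.Surjective (e.symm.toMonoidHom.comp (PresentedGroup.mk
        ({(List.ofFn (fun i : Fin g =>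
            FreeGroup.of (Sum.inl i : Fin g ⊕ Fin g) *
            FreeGroup.of (Sum.inr i : Fin g ⊕ Fin g) *
            (FreeGroup.of (Sum.inl i : Fin g ⊕ Fin g))⁻¹ *
            (FreeGroup.of (Sum.inr i : Fin g ⊕ Fin g))⁻¹)).prod} :
          Set (FreeGroup (Fin g ⊕ Fin g))))) := by
    intro x
    obtain ⟨y, hy⟩ := PresentedGroup.mk_surjective _ (e x)
    refine ⟨y, ?_⟩
    change e.symm _ = x
    rw [hy, MulEquiv.symm_apply_apply]
  exact Group.fg_of_surjective h2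

/-- For a subgroup of `Aut(G)` containing the inner automorphisms, the congruence condition for
`Out(G)` of the question is the same as `IsCong`. -/
theorem isCong_iff {G : Type u} [Group G] {H : Subgroup (MulAut G)}
    (hH : ∀ x : G, MulAut.conj x ∈ H) :
    IsCong H ↔ ∃ Γ : Subgroup G, Γ.Characteristic ∧ Γ.FiniteIndex ∧
      ∀ φ : MulAut G, (∃ h : G, ∀ x : G, φ x * (h * x * h⁻¹)⁻¹ ∈ Γ) → φ ∈ H := by
  constructor
  · intro h
    obtain ⟨Γ, h1, h2, h3⟩ := IsCong.conj h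
    refine ⟨Γ, h1, h2, ?_⟩
    rintro φ ⟨k, hk⟩
    have h4 := H.mul_mem (hH k) (h3 φ k hk)
    rwa [mul_inv_cancel_left] at h4
  · rintro ⟨Γ, h1, h2, h3⟩
    refine ⟨Γ, h1, h2, fun φ hφ => h3 φ ⟨1, fun x => ?_⟩⟩
    simpa using hφ x

/-- Characterisation of the congruence subgroups of `Aut(G)` and `Out(G)` by finite orbits of
algebraic objects on the representation varieties of `G` and of its characteristic subgroups of
finite index, for every finitely generated group `G`, in particular for closed surface groups. -/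
theorem result :
    (∀ (G : Type u) [Group G] [Group.FG G] (F : Type v) [Field F] (H : Subgroup (MulAut G)),
      List.TFAE [
        IsCong H,
        ∃ (n : ℕ) (ρ : G →* GL (Fin n) F), (Set.range ρ).Finite ∧
          ∀ φ : MulAut G, ρ.comp φ.toMonoidHom = ρ → φ ∈ H,
        ∃ (K : Subgroup G) (_ : K.Characteristic) (_ : K.FiniteIndex) (n : ℕ)
          (Z : Set (K →* GL (Fin n) F)), IsConstructible Z ∧ (stab Z).FiniteIndex ∧ stab Z ≤ H,
        ∃ (K : Subgroup G) (_ : K.Characteristic) (_ : K.FiniteIndex) (n : ℕ)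
          (X : Set (K →* GL (Fin n) F)), IsAlgebraic X ∧ (stab X).FiniteIndex ∧
            ∀ φ : MulAut G, (∀ Z, IsComponent X Z → φ ∈ stab Z) → φ ∈ H,
        ∃ (K : Subgroup G) (_ : K.Characteristic) (_ : K.FiniteIndex) (n : ℕ)
          (R : Type v) (_ : CommRing R) (J : Ideal (MvPolynomial (K × Fin n × Fin n) R)),
          relations K n R ⊆ J ∧ (idealStab J).FiniteIndex ∧ idealStab J ≤ H] ∧
      ((∀ x : G, MulAut.conj x ∈ H) →
        (IsCong H ↔ ∃ Γ : Subgroup G, Γ.Characteristic ∧ Γ.FiniteIndex ∧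
          ∀ φ : MulAut G, (∃ h : G, ∀ x : G, φ x * (h * x * h⁻¹)⁻¹ ∈ Γ) → φ ∈ H))) ∧
    (∀ (g : ℕ) (G : Type) [Group G],
      Nonempty (G ≃* PresentedGroup
        ({(List.ofFn (fun i : Fin g =>
            FreeGroup.of (Sum.inl i : Fin g ⊕ Fin g) *
            FreeGroup.of (Sum.inr i : Fin g ⊕ Fin g) *
            (FreeGroup.of (Sum.inl i : Fin g ⊕ Fin g))⁻¹ *
            (FreeGroup.of (Sum.inr i : Fin g ⊕ Fin g))⁻¹)).prod} :
          Set (FreeGroup (Fin g ⊕ Fin g)))) → Group.FG G) := by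
  refine ⟨?_, fun g G _ h => fg_surface g G h⟩
  intro G _ _ F _ H
  refine ⟨?_, isCong_iff⟩
  tfae_have 1 → 2 := by
    rintro ⟨Γ, h1, h2, h3⟩
    obtain ⟨n, ρ, hρ1, hρ2, hρ3, hρ4⟩ := converse Γ F
    exact ⟨n, ρ, hρ1, fun φ hφ => h3 φ (hρ3 φ hφ)⟩
  tfae_have 2 → 1 := by
    rintro ⟨n, ρ, hρ1, hρ2⟩
    have hfin : Finite ρ.range := hρ1
    have hker : ρ.ker.FiniteIndex := Subgroup.finiteIndex_ker ρ
    obtain ⟨Γ, h1, h2, h3⟩ := exists_characteristic_le ρ.ker
    refine ⟨Γ, h1, h2, fun φ hφ => hρ2 φ ?_⟩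
    apply MonoidHom.ext
    intro x
    have h4 := h3 (hφ x)
    rw [MonoidHom.mem_ker, map_mul, map_inv, mul_inv_eq_one] at h4
    exact h4
  tfae_have 1 → 3 := by
    rintro ⟨Γ, h1, h2, h3⟩
    obtain ⟨n, ρ, hρ1, hρ2, hρ3, hρ4⟩ := converse Γ F
    exact ⟨⊤, inferInstance, inferInstance, n, {ρ.comp (⊤ : Subgroup G).subtype},
      .alg (isAlgebraic_singleton _), hρ2, fun φ hφ => h3 φ (hρ4 φ hφ)⟩
  tfae_have 3 → 1 := by
    rintro ⟨K, hK1, hK2, n, Z, hZ, hZ2, hZ3⟩
    exact (isCong_stab_resolv hZ.resolv hZ2).mono hZ3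
  tfae_have 1 → 4 := by
    rintro ⟨Γ, h1, h2, h3⟩
    obtain ⟨n, ρ, hρ1, hρ2, hρ3, hρ4⟩ := converse Γ F
    exact ⟨⊤, inferInstance, inferInstance, n, {ρ.comp (⊤ : Subgroup G).subtype},
      isAlgebraic_singleton _, hρ2,
      fun φ hφ => h3 φ (hρ4 φ (hφ _ (isComponent_singleton _)))⟩
  tfae_have 4 → 1 := by
    rintro ⟨K, hK1, hK2, n, X, hX, hX2, hX3⟩
    refine (isCong_components hX hX2).mono ?_
    intro φ hφ
    rw [Subgroup.mem_iInf] at hφ
    exact hX3 φ fun Z hZ => hφ ⟨Z, hZ⟩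
  tfae_have 1 → 5 := by
    rintro ⟨Γ, h1, h2, h3⟩
    obtain ⟨n, ρ, hρ1, hρ2, hρ3, hρ4⟩ := converse Γ F
    have h4 := stab_eq (isAlgebraic_singleton (ρ.comp (⊤ : Subgroup G).subtype))
    refine ⟨⊤, inferInstance, inferInstance, n, F, inferInstance,
      vanish {ρ.comp (⊤ : Subgroup G).subtype}, relations_subset_vanish _, ?_, ?_⟩
    · rw [← h4]; exact hρ2
    · rw [← h4]; exact fun φ hφ => h3 φ (hρ4 φ hφ)
  tfae_have 5 → 1 := by
    rintro ⟨K, hK1, hK2, n, R, hR, J, hJ, hJ2, hJ3⟩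
    have h : IsCong (idealStab J) := idealStab_congruence J hJ hJ2
    exact h.mono hJ3
  tfae_finish

end Pool.Agent.Results.MP_59b15d_al.AlgebraicOrbits
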