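import Mathlib
import Pool.Agent.H.MP_59b15d_al.h60g.Fin

set_option autoImplicit false

namespace Pool.Agent.Results.MP_59b15d_al.ComplementCriterion

open Pool.MP_59b15d_al.H24T Pool.MP_59b15d_al.H76R Pool.MP_59b15d_al.H60G
open Pool.MP_59b15d_al.H76 (StdGen InnMod)

/-- Let `G` and `G'` be the fundamental groups of closed surfaces of genus `g ≥ 3` and `n > g`. The
mapping class group of the subsurface of genus `g` with one boundary component maps onto the mapping
class group of genus `g`, and for a subgroup `H` of `Aut G` containing the inner automorphisms the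
following are equivalent: `H` is a congruence subgroup; `H` extends to a subgroup `K` of finite
index in genus `n` which is a congruence subgroup on one subsurface homeomorphic to the first one;
(if `n ≥ 2 g`) `H` extends to a subgroup `K` of finite index in genus `n` which contains the mapping
class group of the complementary subsurface. -/
theorem result (g n : ℕ) (hg : 3 ≤ g) (hn : g < n) (G G' : Type) [Group G] [Group G']
    (a b : Fin g → G) (a' b' : Fin n → G') (h : StdGen a b) (h' : StdGen a' b') :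
    (∀ f ∈ SubMod a' b' g, ∃ φ ∈ MCG a b, Ind a b a' b' hn.le f φ ∧
      ∀ ψ, Ind a b a' b' hn.le f ψ → ψ = φ) ∧
    (∀ φ ∈ MCG a b, ∃ f ∈ SubMod a' b' g, Ind a b a' b' hn.le f φ) ∧
    ∀ H : Subgroup (MulAut G), (∀ x : G, MulAut.conj x ∈ H) →
      ((∃ Γ : Subgroup G, Γ.Characteristic ∧ Γ.FiniteIndex ∧
          ∀ φ ∈ MCG a b, InnMod Γ φ → φ ∈ H) ↔
        ∃ K : Subgroup (MulAut G'), K.FiniteIndex ∧ (∀ x : G', MulAut.conj x ∈ K) ∧
          (∃ ψ ∈ MCG a' b', ∃ W : Subgroup (FreeGroup (Fin g ⊕ Fin g)), W.FiniteIndex ∧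
            ∀ f ∈ SubMod a' b' g, (∀ z, ∃ w ∈ W, f (subHom a' b' g hn.le z) =
              subHom a' b' g hn.le (w * z)) → ψ * f * ψ⁻¹ ∈ K) ∧
          ∀ f ∈ SubMod a' b' g, f ∈ K → ∀ φ, Ind a b a' b' hn.le f φ → φ ∈ H) ∧
      (2 * g ≤ n →
        ((∃ Γ : Subgroup G, Γ.Characteristic ∧ Γ.FiniteIndex ∧
            ∀ φ ∈ MCG a b, InnMod Γ φ → φ ∈ H) ↔
          ∃ K : Subgroup (MulAut G'), K.FiniteIndex ∧ (∀ x : G', MulAut.conj x ∈ K) ∧
            (∀ T ∈ Twists a' b' (fun i => g ≤ i) (fun i => g ≤ i) (fun j => g < j), T ∈ K) ∧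
            ∀ f ∈ SubMod a' b' g, f ∈ K → ∀ φ, Ind a b a' b' hn.le f φ → φ ∈ H)) := by
  have hs : IsSurf a b := by obtain ⟨e, he⟩ := h; exact ⟨⟨e, he⟩⟩
  have hs' : IsSurf a' b' := by obtain ⟨e, he⟩ := h'; exact ⟨⟨e, he⟩⟩
  obtain ⟨h1, h2⟩ := part_one (by omega) hn hs' hs
  refine ⟨h1, h2, fun H hI => ⟨⟨fun h3 => ?_, fun h3 => two_one hg hn hs' hs H hI h3⟩,
    fun h2g => ⟨fun h3 => ?_, fun h3 => ?_⟩⟩⟩
  · obtain ⟨K, k1, k2, -, ⟨W, w1, w2⟩, k3⟩ := one_three hn hs' hs (by omega) H h3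
    refine ⟨K, k1, k2, ⟨1, Subgroup.one_mem _, W, w1, fun f hf hz => ?_⟩, k3⟩
    rw [one_mul, inv_one, mul_one]
    exact w2 f hf hz
  · obtain ⟨K, k1, k2, k3, -, k4⟩ := one_three hn hs' hs (by omega) H h3
    exact ⟨K, k1, k2, k3, k4⟩
  · exact two_one hg hn hs' hs H hI (three_two hn h2g hs' H h3)

end Pool.Agent.Results.MP_59b15d_al.ComplementCriterion
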