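import Mathlib
import Pool.Agent.H.MP_59b15d_al.h73e.Xb

set_option autoImplicit false

namespace Pool.Agent.Results.MP_59b15d_al.ExtensionCriterion

open Pool.MP_59b15d_al.H24T Pool.MP_59b15d_al.H76R Pool.MP_59b15d_al.H73E
open Pool.MP_59b15d_al.H76 (StdGen InnMod)

/-- Let `G` and `G'` be the fundamental groups of closed surfaces of genus `g ≥ 3` and `g + 1`. The
mapping class group of the subsurface of genus `g` with one boundary component maps onto the mapping
class group of genus `g`, and for a subgroup `H` of `Aut G` containing the inner automorphisms the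
following are equivalent: `H` is a congruence subgroup; its preimage in the mapping class group of
the subsurface is a congruence subgroup, for the topology of the free group or for that of genus
`g + 1`; `H` extends to genus `g + 1`, up to the centre. -/
theorem result (g : ℕ) (hg : 3 ≤ g) (G G' : Type) [Group G] [Group G'] (a b : Fin g → G)
    (a' b' : Fin (g + 1) → G') (h : StdGen a b) (h' : StdGen a' b') :
    (∀ f ∈ BMod a' b', ∃ φ ∈ MCG a b, Induces a b a' b' f φ ∧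
      ∀ ψ, Induces a b a' b' f ψ → ψ = φ) ∧
    (∀ φ ∈ MCG a b, ∃ f ∈ BMod a' b', Induces a b a' b' f φ) ∧
    ∀ H : Subgroup (MulAut G), (∀ x : G, MulAut.conj x ∈ H) → List.TFAE [
      ∃ Γ : Subgroup G, Γ.Characteristic ∧ Γ.FiniteIndex ∧ ∀ φ ∈ MCG a b, InnMod Γ φ → φ ∈ H,
      ∃ W : Subgroup (FreeGroup (Fin g ⊕ Fin g)), W.FiniteIndex ∧ ∀ f ∈ BMod a' b',
        (∀ z, ∃ w ∈ W, f (subHom a' b' g (Nat.le_succ g) z) =
          subHom a' b' g (Nat.le_succ g) (w * z)) → ∀ φ, Induces a b a' b' f φ → φ ∈ H,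
      ∃ Γ : Subgroup G', Γ.Characteristic ∧ Γ.FiniteIndex ∧ ∀ f ∈ BMod a' b', InnMod Γ f →
        ∀ φ, Induces a b a' b' f φ → φ ∈ H,
      ∃ N : Subgroup (MulAut G'), N.FiniteIndex ∧ (∀ x : G', MulAut.conj x ∈ N) ∧
        ∀ f ∈ BMod a' b', (∀ ψ ∈ MCG a' b', f * ψ * f⁻¹ * ψ⁻¹ ∈ N) →
          ∀ φ, Induces a b a' b' f φ → φ ∈ H] := by
  have hs : IsSurf a b := by obtain ⟨e, he⟩ := h; exact ⟨⟨e, he⟩⟩
  have hs' : IsSurf a' b' := by obtain ⟨e, he⟩ := h'; exact ⟨⟨e, he⟩⟩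
  have hM : MCG a b = TW hs := by rw [MCG_eq hs, Xb_MMs (by omega) hs]
  refine ⟨?_, ?_, fun H hI => ext_tfae hg hs' hs H hI⟩
  · intro f hf
    obtain ⟨f', φ, ht, hφ⟩ := bm_trip hs' hs f hf
    rw [hM]
    exact ⟨φ, hφ, ht.induces, fun ψ hψ => ht.unique hψ⟩
  · intro φ hφ
    rw [hM] at hφ
    obtain ⟨f, hf, f', ht⟩ := bm_surj hs' hs φ hφ
    exact ⟨f, hf, ht.induces⟩

end Pool.Agent.Results.MP_59b15d_al.ExtensionCriterion
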