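import Mathlib
import Pool.Agent.H.MP_59b15d_al.h24t.Lift

set_option autoImplicit false

namespace Pool.Agent.Results.MP_59b15d_al.FiniteExtensionLifts

open Pool.MP_59b15d_al.H24T

universe u

/-- Automorphisms of a closed surface group that are trivial modulo the intersection of the kernels
of all homomorphisms to a symmetric group of degree `B` lift to every extension, with finite kernel
of order at most `n`, of every subgroup of index at most `c`, compatibly with the kernel and with
every homomorphism to the symmetric group of degree `e`. Here `B` depends only on `n, e, c`. -/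
theorem result (n e c : ℕ) : ∃ B : ℕ, ∀ g : ℕ, 1 ≤ g →
    ∀ (G : Type) [Group G],
      Nonempty (G ≃* PresentedGroup
        ({(List.ofFn (fun i : Fin g =>
            FreeGroup.of (Sum.inl i : Fin g ⊕ Fin g) *
            FreeGroup.of (Sum.inr i : Fin g ⊕ Fin g) *
            (FreeGroup.of (Sum.inl i : Fin g ⊕ Fin g))⁻¹ *
            (FreeGroup.of (Sum.inr i : Fin g ⊕ Fin g))⁻¹)).prod} :
          Set (FreeGroup (Fin g ⊕ Fin g)))) →
      (level G B).Characteristic ∧ (level G B).FiniteIndex ∧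
      ∀ (P : Type u) [Group P] (π : P →* G), π.range.FiniteIndex → π.range.index ≤ c →
        Finite π.ker → Nat.card π.ker ≤ n → ∀ r : P →* Equiv.Perm (Fin e),
        (∀ φ : MulAut G, (∀ x : G, φ x * x⁻¹ ∈ level G B) → LiftsTo π r φ) ∧
        (∀ H : Subgroup (MulAut G), (∀ x : G, MulAut.conj x ∈ H) →
          (∀ φ : MulAut G, LiftsTo π r φ → φ ∈ H) →
          ∀ φ : MulAut G, (∃ h : G, ∀ x : G, φ x * (h * x * h⁻¹)⁻¹ ∈ level G B) → φ ∈ H) := by
  refine ⟨bdLevel n e c, ?_⟩
  intro g hg G _ hG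
  obtain ⟨k, rfl⟩ : ∃ k, g = k + 1 := ⟨g - 1, by omega⟩
  obtain ⟨a, b, h⟩ := exists_isSurf (g := k + 1) hG
  have hfg : Group.FG G := by
    rw [Group.fg_iff]
    exact ⟨_, h.closure_eq, (Set.finite_range a).union (Set.finite_range b)⟩
  refine ⟨level_characteristic G _, level_finiteIndex G _, ?_⟩
  intro P _ π hπ hπc hfin hn r
  have key : ∀ φ : MulAut G, (∀ x : G, φ x * x⁻¹ ∈ level G (bdLevel n e c)) → LiftsTo π r φ :=
    fun φ hφ => lifts_of_level h π hπ.index_ne_zero hπc hn r φ hφ
  refine ⟨key, ?_⟩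
  rintro H hH hL φ ⟨k, hk⟩
  have h1 : φ * (MulAut.conj k)⁻¹ ∈ H := by
    apply hL
    apply key
    intro x
    have h2 := hk (k⁻¹ * x * k)
    have h3 : k * (k⁻¹ * x * k) * k⁻¹ = x := by group
    rw [h3] at h2
    have h4 : (φ * (MulAut.conj k)⁻¹) x = φ (k⁻¹ * x * k) := by
      rw [MulAut.mul_apply, ← map_inv, MulAut.conj_apply, inv_inv]
    rw [h4]
    exact h2
  have h5 := H.mul_mem h1 (hH k)
  rwa [inv_mul_cancel_right] at h5

end Pool.Agent.Results.MP_59b15d_al.FiniteExtensionLifts
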