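import Mathlib
import Pool.Agent.H.MP_59b15d_al.h76m.Hh
import Pool.Agent.H.MP_59b15d_al.h76m.Hi

set_option autoImplicit false

namespace Pool.MP_59b15d_al.Variants.HandleReduction

open Pool.MP_59b15d_al.H24T Pool.MP_59b15d_al.H76

/-- The relative congruence subgroup property of the group generated by the twists of all handles of
a closed surface of genus at least three, and the resulting reductions of the congruence subgroup
problem in that genus. -/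
theorem result (g : ℕ) (hg : 3 ≤ g) (G : Type) [Group G] (a b : Fin g → G) (h : StdGen a b) :
    (∀ i : Fin g, (∃ T : MulAut G, IsTwist a b i T ∧ T (a i) = a i ∧ T (b i) = b i * a i) ∧
      (∃ T : MulAut G, IsTwist a b i T ∧ T (a i) = a i * b i ∧ T (b i) = b i)) ∧
    (∀ H : Subgroup (MulAut G), H.FiniteIndex → (∀ x : G, MulAut.conj x ∈ H) →
      ∃ Γ : Subgroup G, Γ.Characteristic ∧ Γ.FiniteIndex ∧ ∀ a' b' : Fin g → G, StdGen a' b' →
        ∀ φ ∈ AA a' b', InnMod Γ φ → φ ∈ H) ∧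
    List.TFAE [
      ∀ H : Subgroup (MulAut G), H.FiniteIndex → (∀ x : G, MulAut.conj x ∈ H) → IsCong H,
      ∀ H : Subgroup (MulAut G), H.FiniteIndex → (∀ x : G, MulAut.conj x ∈ H) →
        (∀ i T, IsTwist a b i T → T ∈ H) → IsCong H,
      ∀ (V : Type) [AddCommGroup V] [Module ℂ V] [FiniteDimensional ℂ V]
        (ρ : MulAut G →* (V ≃ₗ[ℂ] V)), ρ.ker.FiniteIndex → (∀ x : G, ρ (MulAut.conj x) = 1) →
        (∀ W : Submodule ℂ V, (∀ φ, ∀ w ∈ W, ρ φ w ∈ W) → W = ⊥ ∨ W = ⊤) →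
        (∃ v : V, v ≠ 0 ∧ ∀ T : MulAut G, (∃ i, IsTwist a b i T) → ρ T v = v) → IsCong ρ.ker,
      ∀ Γ : Subgroup G, Γ.Characteristic → Γ.FiniteIndex → ∀ N : Subgroup (MulAut G),
        N.Normal → N.FiniteIndex → (∀ x : G, MulAut.conj x ∈ N) → (∀ φ ∈ N, InnMod Γ φ) →
        (∀ a' b' : Fin g → G, StdGen a' b' → ∀ φ ∈ AA a' b', InnMod Γ φ → φ ∈ N) →
        IsCong N] := by
  have hs : ∀ a' b' : Fin g → G, StdGen a' b' ↔ IsSurf a' b' := fun a' b' =>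
    ⟨fun ⟨e, he⟩ => ⟨⟨e, he⟩⟩, fun ⟨⟨e, he⟩⟩ => ⟨e, he⟩⟩
  have h' := (hs a b).mp h
  refine ⟨fun i => twists_exist h' i, ?_, ?_⟩
  · intro H hH hI
    obtain ⟨Γ, hc, hf, hΓ⟩ := relCong_all h' hg H hH hI
    exact ⟨Γ, hc, hf, fun a' b' h1 => hΓ a' b' ((hs a' b').mp h1)⟩
  tfae_have 1 → 2 := fun h1 H hH hI _ => h1 H hH hI
  tfae_have 2 → 1 := (reduction_AA h' hg).mpr
  tfae_have 1 → 3 := by
    intro h1 V _ _ _ ρ hf hI _ _
    exact h1 ρ.ker hf hI
  tfae_have 3 → 2 := by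
    intro h3 H hH hI hT
    exact cong_of_irr {T | ∃ i, IsTwist a b i T} h3 H hH hI (fun T ⟨i, hi⟩ => hT i T hi)
  tfae_have 1 → 4 := fun h1 Γ _ _ N _ hf hI _ _ => h1 N hf hI
  tfae_have 4 → 1 := fun h4 => normal_form h' hg (fun Γ hc hf N hn hNf hI hN hA =>
    h4 Γ hc hf N hn hNf hI hN (fun a' b' h1 => hA a' b' ((hs a' b').mp h1)))
  tfae_finish

end Pool.MP_59b15d_al.Variants.HandleReduction
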