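import Mathlib
import Pool.Agent.H.MP_59b15d_al.h62g.Fin

set_option autoImplicit false

namespace Pool.Agent.Results.MP_59b15d_al.NormalIndex

open Pool.MP_59b15d_al.H24T Pool.MP_59b15d_al.H76R Pool.MP_59b15d_al.H73E Pool.MP_59b15d_al.H95G
open Pool.Agent.H.MP_59b15d_al.H93C Pool.Agent.H.MP_59b15d_al.H73X
open Pool.MP_59b15d_al.H76 (StdGen InnMod)

/-- Let `G` be the fundamental group of a closed surface of genus `g ≥ 5` and `N` a subgroup of
`Aut G` which contains the inner automorphisms, is normalised by the mapping class group and has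
index smaller than `2 ^ (g (g + 1) (2 g - 5) / 3 + 10)` in it. Then `N` is a congruence subgroup: it
contains all mapping classes which are inner modulo some characteristic subgroup of finite index
of `G`. -/
theorem result (g : ℕ) (hg : 5 ≤ g) (G : Type) [Group G] (a b : Fin g → G) (h : StdGen a b)
    (N : Subgroup (MulAut G)) (hN : ∀ ψ ∈ MCG a b, ∀ x ∈ N, ψ * x * ψ⁻¹ ∈ N)
    (hI : ∀ x : G, MulAut.conj x ∈ N) (h0 : N.relIndex (MCG a b) ≠ 0)
    (hlt : N.relIndex (MCG a b) < 2 ^ (g * (g + 1) * (2 * g - 5) / 3 + 10)) :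
    ∃ Γ : Subgroup G, Γ.Characteristic ∧ Γ.FiniteIndex ∧
      ∀ φ ∈ MCG a b, InnMod Γ φ → φ ∈ N :=
  Pool.Agent.H.MP_59b15d_al.H62G.normal_index g hg G a b h N hN hI h0 hlt

end Pool.Agent.Results.MP_59b15d_al.NormalIndex
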