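import Mathlib
import Pool.Agent.H.MP_59b15d_al.lin.Cong
import Pool.Agent.H.MP_59b15d_al.lin.GenR
import Pool.Agent.H.MP_59b15d_al.h93c.Final
import Pool.Agent.H.MP_59b15d_al.pk.Fin3

set_option autoImplicit false

namespace Pool.MP_59b15d_al.Variants.QuadraticLinear

open Pool.MP_59b15d_al.H24T Pool.MP_59b15d_al.H76R Pool.MP_59b15d_al.H73E
open Pool.Agent.H.MP_59b15d_al.H73X (congr_of_rels)
open Pool.Agent.H.MP_59b15d_al.SP Pool.Agent.H.MP_59b15d_al.Lin Pool.Agent.H.MP_59b15d_al.H93C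
open Pool.MP_59b15d_al.H76 (StdGen InnMod)

/-- The largest subgroup of `H` normalised by `M`. -/
theorem exists_core {A : Type*} [Group A] (H M : Subgroup A) (h0 : H.relIndex M ≠ 0) :
    ∃ N : Subgroup A, N ≤ H ∧ N.relIndex M ≠ 0 ∧ (∀ f ∈ M, ∀ x ∈ N, f * x * f⁻¹ ∈ N) ∧
      ∀ x ∈ M, (∀ f ∈ M, f * x * f⁻¹ ∈ H) → x ∈ N := by
  have : (H.subgroupOf M).FiniteIndex := ⟨h0⟩
  obtain ⟨K, hK⟩ : ∃ K : Subgroup M, K = (H.subgroupOf M).normalCore := ⟨_, rfl⟩
  have nK : K.Normal := by rw [hK]; infer_instance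
  refine ⟨K.map M.subtype, ?_, ?_, ?_, ?_⟩
  · rintro _ ⟨k, hk, rfl⟩
    rw [hK] at hk
    have h1 := Subgroup.normalCore_le (H.subgroupOf M) hk
    exact h1
  · have h1 : (K.map M.subtype).subgroupOf M = K :=
      Subgroup.comap_map_eq_self_of_injective M.subtype_injective K
    rw [Subgroup.relIndex, h1, hK]
    exact (inferInstance : (H.subgroupOf M).normalCore.FiniteIndex).index_ne_zero
  · rintro f hf _ ⟨k, hk, rfl⟩
    exact ⟨⟨f, hf⟩ * k * ⟨f, hf⟩⁻¹, nK.conj_mem k hk ⟨f, hf⟩, rfl⟩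
  · intro x hx hc
    refine ⟨⟨x, hx⟩, ?_, rfl⟩
    rw [hK]
    intro f
    exact hc f f.2

/-- Let `G` be the fundamental group of a closed surface of genus `g` and `r = ⌊g / 3⌋`. Let `ρ` be
a representation of dimension less than `18 r (r - 1)` of the mapping class group over any field.
If `ρ` is semisimple, then it factors through the action on the first homology modulo the
characteristic of the field. Every subgroup of finite index which contains the kernel of `ρ` is a
congruence subgroup, if it contains the inner automorphisms or `ρ` is semisimple. -/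
theorem result (g : ℕ) (G : Type) [Group G] (a b : Fin g → G) (h : StdGen a b)
    (F V : Type) [Field F] [AddCommGroup V] [Module F V] [FiniteDimensional F V]
    (ρ : Representation F (MCG a b) V)
    (hdim : Module.finrank F V < 18 * (g / 3 * (g / 3 - 1))) :
    (ρ.IsSemisimpleRepresentation →
      (∀ H : Subgroup (MulAut G), H.relIndex (MCG a b) ≠ 0 → (∀ φ : MCG a b, ρ φ = 1 → ↑φ ∈ H) →
        ∃ Γ : Subgroup G, Γ.Characteristic ∧ Γ.FiniteIndex ∧
          ∀ φ ∈ MCG a b, InnMod Γ φ → φ ∈ H) ∧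
      ∀ n : ℕ, (n : F) = 0 → ∀ φ : MCG a b,
        (∀ x : G, ∃ y : G, (φ : MulAut G) x * x⁻¹ * y ^ n ∈ commutator G) → ρ φ = 1) ∧
    ∀ H : Subgroup (MulAut G), H.relIndex (MCG a b) ≠ 0 → (∀ φ : MCG a b, ρ φ = 1 → ↑φ ∈ H) →
      (∀ x : G, MulAut.conj x ∈ H) →
        ∃ Γ : Subgroup G, Γ.Characteristic ∧ Γ.FiniteIndex ∧
          ∀ φ ∈ MCG a b, InnMod Γ φ → φ ∈ H := by
  have hs : IsSurf a b := by obtain ⟨e, he⟩ := h; exact ⟨⟨e, he⟩⟩
  have hr : 2 ≤ g / 3 := by
    by_contra hlt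
    have h1 : g / 3 * (g / 3 - 1) = 0 := by
      rcases (by omega : g / 3 = 0 ∨ g / 3 = 1) with h2 | h2 <;> rw [h2]
    rw [h1] at hdim
    omega
  have hrm : 3 * (g / 3) ≤ g := Nat.mul_div_le g 3
  have hd : 2 * Module.finrank F V < 36 * (g / 3 * (g / 3 - 1)) := by omega
  refine ⟨fun hρ => ?_, fun H hH hk hI => ?_⟩
  · have hc : CompRed ρ := by
      intro U hU
      obtain ⟨W, hW⟩ := hρ.exists_isCompl (⟨U, fun x v hv => hU x v hv⟩ : Subrepresentation ρ)
      refine ⟨W.toSubmodule, fun x u hu => W.apply_mem_toSubmodule x hu, ?_⟩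
      constructor
      · rw [disjoint_iff]
        exact congrArg Subrepresentation.toSubmodule (disjoint_iff.1 hW.1)
      · rw [codisjoint_iff]
        exact congrArg Subrepresentation.toSubmodule (codisjoint_iff.1 hW.2)
    refine ⟨fun H hH hk => lin_cong hs hr hrm ρ hc hd H hH hk, fun n hn φ hφ => ?_⟩
    refine lin_mod hs hr hrm ρ hc hd (n := (n : ℤ)) (by exact_mod_cast hn) fun x => ?_
    obtain ⟨y, hy⟩ := hφ x
    have h0 : ∀ z ∈ commutator G, cls hs z = 0 := by
      intro z hz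
      have hle : commutator G ≤ (exists_abm hs).choose.ker :=
        Abelianization.commutator_subset_ker _
      have h1 := hle hz
      rw [MonoidHom.mem_ker] at h1
      change Multiplicative.toAdd ((exists_abm hs).choose z) = 0
      rw [h1]
      rfl
    have h1 := h0 _ hy
    have hpow : ∀ k : ℕ, cls hs (y ^ k) = k • cls hs y := by
      intro k
      induction k with
      | zero => rw [pow_zero, cls_one, zero_smul]
      | succ k ih => rw [pow_succ, cls_mul, ih, succ_nsmul]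
    rw [cls_mul, cls_mul, cls_inv, hpow] at h1
    refine ⟨-cls hs y, ?_⟩
    rw [smul_neg, natCast_zsmul]
    have h2 : cls hs ((φ : MulAut G) x) - cls hs x =
        (cls hs ((φ : MulAut G) x) + -cls hs x + n • cls hs y) - n • cls hs y := by abel
    rw [h2, h1, zero_sub]
  · obtain ⟨N, n1, n2, n3, n4⟩ := exists_core H (MCG a b) hH
    have hNI : ∀ x : G, MulAut.conj x ∈ N := by
      intro x
      have hx : ∀ y : G, MulAut.conj y ∈ MCG a b := fun y =>
        Subgroup.subset_closure (Or.inl ⟨y, rfl⟩)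
      refine n4 _ (hx x) fun f _ => ?_
      have h1 : f * MulAut.conj x * f⁻¹ = MulAut.conj (f x) := by
        ext z
        simp
      rw [h1]
      exact hI _
    have hNρ : ∀ φ : MCG a b, ρ φ = 1 → (φ : MulAut G) ∈ N := by
      intro φ hφ
      refine n4 _ φ.2 fun f hf => ?_
      refine hk (⟨f, hf⟩ * φ * ⟨f, hf⟩⁻¹) ?_
      rw [map_mul, map_mul, hφ, mul_one, ← map_mul, mul_inv_cancel, map_one]
    obtain ⟨n, rfl⟩ : ∃ n, g = n + 1 := ⟨g - 1, by omega⟩
    have hM : MCG a b = MMs hs := MCG_eq hs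
    have n3' : ∀ f ∈ MMs hs, ∀ x ∈ N, f * x * f⁻¹ ∈ N := by rw [← hM]; exact n3
    have n2' : N.relIndex (MMs hs) ≠ 0 := by rw [← hM]; exact n2
    obtain ⟨e1, e2, e3⟩ := gen_R (h := hs) (N := N) hr hrm ρ hd n3' hNρ
    obtain ⟨Γ, h1, h2, h3⟩ := congr_of_rels hs (by omega) N n3' hNI n2' ⟨e1, e2, e3⟩
    rw [hM]
    exact ⟨Γ, h1, h2, fun φ hφ hi => n1 (h3 φ hφ hi)⟩

end Pool.MP_59b15d_al.Variants.QuadraticLinear
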