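import Mathlib
import Pool.Agent.H.MP_59b15d_al.symh.Fin
import Pool.Agent.H.MP_59b15d_al.h76r.Sd

set_option autoImplicit false

namespace Pool.Agent.Results.MP_59b15d_al.SymmetricCovers

open Pool.MP_59b15d_al.SymH
open Pool.MP_59b15d_al.H76 (StdGen InnMod)

/-- The congruence subgroup property of the symmetric mapping class groups of the finite groups
acting on closed surfaces. -/
theorem result {G : Type} [Group G] :
    (∀ (ν N : ℕ) (K : Subgroup (FG ν N)) (e : Fin (N + 1) → ℕ) (q : ↥K →* G), IsCov K e q →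
      (∃ (p : ℕ) (a b : Fin p → G), StdGen a b ∧ 2 ≤ p ∧
        (2 * p - 2 : ℚ) = K.index * (2 * ν + N - 1 - ∑ j : Fin (N + 1), (1 / e j : ℚ))) ∧
      (∀ f ∈ PFK K, ∃! φ : MulAut G, Ind K q f φ) ∧
      ∀ H : Subgroup (MulAut G), (∀ x : G, MulAut.conj x ∈ H) →
        ((∃ Γ : Subgroup G, Γ.Characteristic ∧ Γ.FiniteIndex ∧
            ∀ φ ∈ SS K q, InnMod Γ φ → φ ∈ H) ↔
          ∃ V : Subgroup (FG ν N), V.FiniteIndex ∧
            ∀ f ∈ PFK K, (∀ z, f z * z⁻¹ ∈ V) → ∀ φ : MulAut G, Ind K q f φ → φ ∈ H) ∧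
        ((ν ≤ 1 ∨ HasG0 ν 0) → H.relIndex (SS K q) ≠ 0 →
          ∃ Γ : Subgroup G, Γ.Characteristic ∧ Γ.FiniteIndex ∧
            ∀ φ ∈ SS K q, InnMod Γ φ → φ ∈ H)) ∧
    ∀ (p : ℕ) (a b : Fin p → G), StdGen a b → ∀ H : Subgroup (MulAut G), H.FiniteIndex →
      (∀ x : G, MulAut.conj x ∈ H) →
        ∃ Γ : Subgroup G, Γ.Characteristic ∧ Γ.FiniteIndex ∧
          ∀ (ν N : ℕ) (K : Subgroup (FG ν N)) (e : Fin (N + 1) → ℕ) (q : ↥K →* G),
            (ν ≤ 1 ∨ HasG0 ν 0) → IsCov K e q → ∀ φ ∈ SS K q, InnMod Γ φ → φ ∈ H := by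
  refine ⟨fun ν N K e q h => ⟨?_, fun f hf => ?_, fun H hi => ⟨?_, fun hG hH => ?_⟩⟩,
    fun p a b h H hH hi => ?_⟩
  · obtain ⟨p, a, b, hs, hp⟩ := cov_genus h
    exact ⟨p, a, b, hs, (bound h hs).1, hp⟩
  · obtain ⟨φ, hφ⟩ := exists_Ind (q := q) h.nor h.ord h.sur h.ker hf
    exact ⟨φ, hφ, fun ψ hψ => Ind.unique h.sur hf hψ hφ⟩
  · rw [topologies h H hi]
    constructor
    · rintro ⟨V, -, hVf, hV⟩
      exact ⟨V, hVf, hV⟩
    · rintro ⟨V, hVf, hV⟩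
      exact ⟨V.normalCore, inferInstance, inferInstance, fun f hf hfz φ hφ =>
        hV f hf (fun z => V.normalCore_le (hfz z)) φ hφ⟩
  · exact csp_of_g0 (hasG0_all hG N) h H hH hi
  · obtain ⟨Γ, hc, hf, hΓ⟩ := uniform h H hH hi
    exact ⟨Γ, hc, hf, fun ν N K e q hG hcov => hΓ ν N K e q (hasG0_all hG N) hcov⟩

end Pool.Agent.Results.MP_59b15d_al.SymmetricCovers
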